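import Pool.Agent.H547.CW.Stm

set_option autoImplicit false

/-!
Proof of `S_V` of the project CW64 (helper547): the `p`-adic valuation of the products `G s k f s j`.
-/

namespace Pool.Agent.H909.CW64.V

open Finset Pool.Agent.R439.PL Pool.Agent.H547 Pool.Agent.H547.CV Pool.Agent.H547.CW
open scoped Nat

theorem po_succ (y : ℚ) (k : ℕ) : po y (k + 1) = po y k * (y + k) := prod_range_succ _ _

theorem po_succ' (y : ℚ) (k : ℕ) : po y (k + 1) = y * po (y + 1) k := by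
  unfold po
  rw [prod_range_succ', mul_comm]
  congr 1
  · simp
  · exact prod_congr rfl fun i _ => by push_cast; ring

theorem po_add (y : ℚ) (j k : ℕ) : po y (j + k) = po y j * po (y + j) k := by
  unfold po
  rw [prod_range_add]
  congr 1
  exact prod_congr rfl fun i _ => by push_cast; ring

theorem po_rev (y : ℚ) (j : ℕ) : po (1 - y) j = (-1) ^ j * po (y - j) j := by
  induction j with
  | zero => simp [po]
  | succ j ih =>
    have h : y - ((j + 1 : ℕ) : ℚ) + 1 = y - j := by push_cast; ring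
    rw [po_succ, ih, po_succ', h, pow_succ]
    push_cast
    ring

variable {p : ℕ} [hp : Fact p.Prime]

theorem po_mem {y : ℚ} (hy : y ∈ Zp p) (k : ℕ) : po y k ∈ Zp p :=
  prod_mem fun i _ => add_mem hy (nat_mem i)

theorem approx {y : ℚ} (hy : y ∈ Zp p) (M : ℕ) : ∃ n : ℕ, I p M (y - n) := by
  obtain ⟨a, b, hb, rfl⟩ := hy
  have hcop : IsCoprime b ((p : ℤ) ^ M) :=
    ((Prime.coprime_iff_not_dvd (pz (p := p))).2 hb).symm.pow_right
  obtain ⟨c, d, hcd⟩ := hcop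
  have hP : ((p : ℤ) ^ M) ≠ 0 := pow_ne_zero _ (pz (p := p)).ne_zero
  have h0 : 0 ≤ (a * c) % ((p : ℤ) ^ M) := Int.emod_nonneg _ hP
  have h1 : (a * c) % ((p : ℤ) ^ M) + (p : ℤ) ^ M * ((a * c) / ((p : ℤ) ^ M)) = a * c :=
    Int.emod_add_mul_ediv _ _
  refine ⟨((a * c) % ((p : ℤ) ^ M)).toNat, ?_⟩
  generalize (a * c) / ((p : ℤ) ^ M) = q at h1
  have h2 : ((((a * c) % ((p : ℤ) ^ M)).toNat : ℕ) : ℤ) = a * c - (p : ℤ) ^ M * q := by
    rw [Int.toNat_of_nonneg h0]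
    linarith
  have h3 : ((((a * c) % ((p : ℤ) ^ M)).toNat : ℕ) : ℚ) = a * c - (p : ℚ) ^ M * q := by
    exact_mod_cast h2
  have hb0 : (b : ℚ) ≠ 0 := by
    intro h
    apply hb
    have : b = 0 := by exact_mod_cast h
    rw [this]
    exact dvd_zero _
  have hcd' : (c : ℚ) * b + d * (p : ℚ) ^ M = 1 := by exact_mod_cast hcd
  rw [h3]
  refine ⟨((a * d + b * q : ℤ) : ℚ) / b, ⟨_, b, hb, rfl⟩, ?_⟩
  push_cast
  field_simp
  linear_combination (a : ℚ) * (-hcd')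

theorem po_div {y : ℚ} (hy : y ∈ Zp p) (k : ℕ) : po y k / (k ! : ℚ) ∈ Zp p := by
  obtain ⟨M, u, hu, hk⟩ := Nat.exists_eq_pow_mul_and_not_dvd (Nat.factorial_ne_zero k) p
    hp.out.ne_one
  obtain ⟨n, hn⟩ := approx hy M
  have h1 : EQ p M (po y k) (po (n : ℚ) k) :=
    EQ.prod fun i _ => EQ.add ⟨hy, nat_mem n, hn⟩ (EQ.refl (nat_mem i))
  obtain ⟨z, hz, h2⟩ := h1.2.2
  have h3 : po (n : ℚ) k = (k ! : ℚ) * ((n + k - 1).choose k : ℚ) := by
    have h := Nat.ascFactorial_eq_factorial_mul_choose' n k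
    rw [Nat.ascFactorial_eq_prod_range] at h
    unfold po
    exact_mod_cast h
  have hk' : (k ! : ℚ) = (p : ℚ) ^ M * u := by exact_mod_cast hk
  have hu' : U p (u : ℚ) := by
    have h : ¬ (p : ℤ) ∣ (u : ℤ) := fun h => hu (Int.natCast_dvd_natCast.1 h)
    exact_mod_cast U_int h
  have hP : ((p : ℚ) ^ M) ≠ 0 := pow_ne_zero _ p_ne
  have h4 : po y k / (k ! : ℚ) = z / u + ((n + k - 1).choose k : ℚ) := by
    have h5 : po y k = (p : ℚ) ^ M * z + po (n : ℚ) k := by linarith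
    rw [h5, h3]
    have hk0 : (k ! : ℚ) ≠ 0 := by exact_mod_cast Nat.factorial_ne_zero k
    rw [add_div, mul_div_cancel_left₀ _ hk0, hk', mul_div_mul_left _ _ hP]
  rw [h4]
  exact add_mem (dmem hz hu') (nat_mem _)

theorem T2 {y : ℚ} (hy : y ∈ Zp p) {r k j : ℕ} (hk : 1 ≤ k) (hjk : j + k = p ^ r) :
    I p r (k * po y k * po (1 - y) j / ((k ! : ℚ) * (j ! : ℚ))) := by
  obtain ⟨k, rfl⟩ : ∃ k', k = k' + 1 := ⟨k - 1, by omega⟩
  have h1 : po (y - j) (j + (k + 1)) = po (y - j) j * po y (k + 1) := by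
    rw [po_add]
    congr 2
    ring
  have h2 := po_div (p := p) (y := y - j) (sub_mem hy (nat_mem j)) (j + (k + 1))
  refine ⟨(-1) ^ j * (po (y - j) (j + (k + 1)) / ((j + (k + 1)) ! : ℚ)) *
    ((j + k).choose k : ℚ), ?_, ?_⟩
  · exact mul_mem (mul_mem (pow_mem (neg_mem (one_mem _)) _) h2) (nat_mem _)
  · rw [po_rev, h1]
    have e1 : ((j + k).choose k : ℚ) * (j ! : ℚ) * (k ! : ℚ) = ((j + k) ! : ℚ) := by
      exact_mod_cast Nat.add_choose_mul_factorial_mul_factorial j k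
    have e2 : ((j + (k + 1)) ! : ℚ) = ((j : ℚ) + (k + 1)) * ((j + k) ! : ℚ) := by
      rw [← add_assoc, Nat.factorial_succ]
      push_cast
      ring
    have e3 : ((k + 1) ! : ℚ) = ((k : ℚ) + 1) * (k ! : ℚ) := by
      rw [Nat.factorial_succ]
      push_cast
      ring
    have e4 : (p : ℚ) ^ r = (j : ℚ) + (k + 1) := by exact_mod_cast hjk.symm
    have hj0 : (j ! : ℚ) ≠ 0 := by exact_mod_cast Nat.factorial_ne_zero j
    have hk0 : (k ! : ℚ) ≠ 0 := by exact_mod_cast Nat.factorial_ne_zero k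
    have hc0 : ((j + k).choose k : ℚ) ≠ 0 := by
      exact_mod_cast (Nat.choose_pos (Nat.le_add_left k j)).ne'
    have hs0 : (j : ℚ) + (k + 1) ≠ 0 := by positivity
    have hk1 : (k : ℚ) + 1 ≠ 0 := by positivity
    rw [e4, e2, ← e1, e3]
    push_cast
    field_simp

theorem T3 {y : ℚ} (hy : y ∈ Zp p) {r k j : ℕ} (hp3 : 3 ≤ p) (hr : 1 ≤ r) (hk : 1 ≤ k)
    (hjk : j + k = p ^ r) (h1 : y + k - 1 ≠ 0) (h2 : y + k - 2 ≠ 0) :
    k * po y k * po (1 - y) j / ((k ! : ℚ) * (j ! : ℚ) * ((y + k - 1) * (y + k - 2))) ∈ Zp p := by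
  have hN3 : 3 ≤ p ^ r := hp3.trans (Nat.le_self_pow (by omega) p)
  obtain ⟨k, rfl⟩ : ∃ k', k = k' + 1 := ⟨k - 1, by omega⟩
  obtain ⟨m, hm⟩ : ∃ m, j + k = m + 1 := ⟨j + k - 1, by omega⟩
  have hmq : (j : ℚ) + k = m + 1 := by exact_mod_cast hm
  have hy' : y - j ∈ Zp p := sub_mem hy (nat_mem j)
  have e5 : po (y - j) j * po y (k + 1) =
      po (y - j) m * ((y + ((k + 1 : ℕ) : ℚ) - 2) * (y + ((k + 1 : ℕ) : ℚ) - 1)) := by
    have h3 : po (y - j) (j + (k + 1)) = po (y - j) j * po y (k + 1) := by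
      rw [po_add]
      congr 2
      ring
    rw [← h3, ← add_assoc, hm, po_succ, po_succ, mul_assoc]
    push_cast
    congr 2
    · linear_combination (-1 : ℚ) * hmq
    · linear_combination (-1 : ℚ) * hmq
  have hu : U p ((m : ℚ) + 1) := by
    have h3 : ¬ (p : ℤ) ∣ ((m : ℤ) + 1) := by
      intro h
      have h4 : (p : ℤ) ∣ ((p : ℤ) ^ r) := dvd_pow_self _ (by omega)
      have h5 : ((p : ℤ) ^ r) = (m : ℤ) + 1 + 1 := by
        have : p ^ r = m + 1 + 1 := by omega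
        exact_mod_cast this
      rw [h5] at h4
      have h6 := (dvd_add_right h).1 h4
      exact (pz (p := p)).not_dvd_one h6
    exact_mod_cast U_int h3
  have h6 : k * 0 = 0 := mul_zero k
  have e1 : ((j + k).choose k : ℚ) * (j ! : ℚ) * (k ! : ℚ) = ((m + 1) ! : ℚ) := by
    rw [← hm]
    exact_mod_cast Nat.add_choose_mul_factorial_mul_factorial j k
  have e2 : ((m + 1) ! : ℚ) = ((m : ℚ) + 1) * (m ! : ℚ) := by
    rw [Nat.factorial_succ]
    push_cast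
    ring
  have e3 : ((k + 1) ! : ℚ) = ((k : ℚ) + 1) * (k ! : ℚ) := by
    rw [Nat.factorial_succ]
    push_cast
    ring
  have hj0 : (j ! : ℚ) ≠ 0 := by exact_mod_cast Nat.factorial_ne_zero j
  have hk0 : (k ! : ℚ) ≠ 0 := by exact_mod_cast Nat.factorial_ne_zero k
  have hm0 : (m ! : ℚ) ≠ 0 := by exact_mod_cast Nat.factorial_ne_zero m
  have hk1 : (k : ℚ) + 1 ≠ 0 := by positivity
  have hm1 : (m : ℚ) + 1 ≠ 0 := by positivity
  have e6 : ((k + 1 : ℕ) : ℚ) * po y (k + 1) * po (1 - y) j / (((k + 1) ! : ℚ) * (j ! : ℚ) *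
      ((y + ((k + 1 : ℕ) : ℚ) - 1) * (y + ((k + 1 : ℕ) : ℚ) - 2))) =
      (-1) ^ j * (po (y - j) m / (m ! : ℚ)) * (((j + k).choose k : ℚ) / ((m : ℚ) + 1)) := by
    have e7 : ((k + 1 : ℕ) : ℚ) * po y (k + 1) * po (1 - y) j =
        ((k : ℚ) + 1) * (-1) ^ j * (po (y - j) m *
          ((y + ((k + 1 : ℕ) : ℚ) - 2) * (y + ((k + 1 : ℕ) : ℚ) - 1))) := by
      rw [← e5, po_rev]
      push_cast
      ring
    rw [e7]
    generalize y + ((k + 1 : ℕ) : ℚ) - 1 = A at *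
    generalize y + ((k + 1 : ℕ) : ℚ) - 2 = B at *
    have e8 : ((j + k).choose k : ℚ) = ((m : ℚ) + 1) * (m ! : ℚ) / ((j ! : ℚ) * (k ! : ℚ)) := by
      rw [← e2, ← e1]
      field_simp
    rw [e8, e3]
    field_simp
  rw [e6]
  exact mul_mem (mul_mem (pow_mem (neg_mem (one_mem _)) _) (po_div hy' m)) (dmem (nat_mem _) hu)

theorem ratio {r u : ℕ} (hp3 : 3 ≤ p) (hu : u % 2 = 1) (h3 : u < 3 * p ^ r) :
    (u : ℚ) / (2 * (p : ℚ) ^ r - u) ∈ Zp p := by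
  have hodd : p % 2 = 1 := by
    rcases hp.out.eq_two_or_odd with h | h
    · omega
    · exact h
  have hNodd : p ^ r % 2 = 1 := by
    rw [Nat.pow_mod, hodd, one_pow]
    norm_num
  by_cases h : u = p ^ r
  · have h4 : (u : ℚ) = (p : ℚ) ^ r := by exact_mod_cast h
    have hP : ((p : ℚ) ^ r) ≠ 0 := pow_ne_zero _ p_ne
    have h5 : (u : ℚ) / (2 * (p : ℚ) ^ r - u) = 1 := by
      rw [h4, show 2 * (p : ℚ) ^ r - (p : ℚ) ^ r = (p : ℚ) ^ r by ring, div_self hP]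
    rw [h5]
    exact one_mem _
  · have hnd : ¬ p ^ r ∣ u := by
      rintro ⟨c, hc⟩
      have hc3 : c < 3 := by
        by_contra hcon
        have h6 : 3 ≤ c := not_lt.1 hcon
        have h7 : 3 * p ^ r ≤ u := by
          rw [hc, mul_comm 3]
          exact Nat.mul_le_mul_left _ h6
        omega
      interval_cases c
      · omega
      · apply h
        omega
      · omega
    obtain ⟨e, v, hv, huv⟩ := Nat.exists_eq_pow_mul_and_not_dvd (n := u) (by omega) p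
      hp.out.ne_one
    have her : e < r := by
      by_contra hcon
      apply hnd
      rw [huv]
      exact Dvd.dvd.mul_right (pow_dvd_pow p (not_lt.1 hcon)) v
    obtain ⟨d, rfl⟩ : ∃ d, r = e + (d + 1) := ⟨r - e - 1, by omega⟩
    have h5 : (u : ℚ) / (2 * (p : ℚ) ^ (e + (d + 1)) - u) =
        ((v : ℤ) : ℚ) / ((2 * (p : ℤ) ^ (d + 1) - v : ℤ) : ℚ) := by
      have h6 : (u : ℚ) = (p : ℚ) ^ e * v := by exact_mod_cast huv
      have hP : ((p : ℚ) ^ e) ≠ 0 := pow_ne_zero _ p_ne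
      rw [h6, pow_add, show 2 * ((p : ℚ) ^ e * (p : ℚ) ^ (d + 1)) - (p : ℚ) ^ e * v =
        (p : ℚ) ^ e * (2 * (p : ℚ) ^ (d + 1) - v) by ring, mul_div_mul_left _ _ hP]
      push_cast
      rfl
    rw [h5]
    refine ⟨_, _, ?_, rfl⟩
    intro h7
    apply hv
    have h8 : (p : ℤ) ∣ 2 * (p : ℤ) ^ (d + 1) :=
      Dvd.dvd.mul_left (dvd_pow_self _ (by omega)) _
    have h9 := (dvd_sub_right h8).1 h7
    exact_mod_cast h9

theorem half_mem (hp3 : 3 ≤ p) : (1 / 2 : ℚ) ∈ Zp p := dmem (one_mem _) (u2 (by omega))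

theorem quarter (hp3 : 3 ≤ p) (n : ℕ) : ((n : ℚ) / 4) ∈ Zp p := by
  have h : (n : ℚ) / 4 = n * ((1 / 2) * (1 / 2)) := by ring
  rw [h]
  exact mul_mem (nat_mem n) (mul_mem (half_mem hp3) (half_mem hp3))

theorem tau_mem (hp3 : 3 ≤ p) {s : ℕ} (hs : 4 * s < p + 3) : tau s ∈ Zp p := by
  unfold tau
  refine pow_mem (dmem (po_mem ?_ s) ?_) 2
  · have := quarter (p := p) hp3 3
    exact_mod_cast this
  · unfold po
    refine U.prod fun i hi => ?_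
    rw [mem_range] at hi
    have h4 : U p (4 : ℚ) := by
      have := (u2 (p := p) (by omega)).mul (u2 (p := p) (by omega))
      have h : (2 : ℚ) * 2 = 4 := by norm_num
      rwa [h] at this
    have h5 : U p (((4 * i + 1 : ℕ) : ℚ)) := uNat (by omega) (by omega)
    have h6 : (1 / 4 + i : ℚ) = ((4 * i + 1 : ℕ) : ℚ) / 4 := by
      push_cast
      ring
    rw [h6]
    exact h5.div h4

theorem alg1 (s K t1 t2 a1 a2 a3 b1 b2 b3 fk fj : ℚ) (hs : 4 * s + 1 ≠ 0) (hfk : fk ≠ 0)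
    (hfj : fj ≠ 0) (hd1 : 1 / 2 - 2 * s + K - 1 ≠ 0) (hd2 : 1 / 2 - 2 * s + K - 2 ≠ 0) :
    -32 * (4 * s + 2) / (4 * s + 1) ^ 2 * K ^ 3 * (t1 * a1 * a2 * a3 / fk ^ 3) /
        ((2 * K - 1 - 4 * s) * (2 * K - 3 - 4 * s)) * (t2 * b1 * b2 * b3 / fj ^ 3) =
      (-8 * (4 * s + 2) * t1 * t2) * (1 / (4 * s + 1)) ^ 2 * (K * a3 * b3 / (fk * fj)) *
        ((K * a1 * b2 / (fk * fj)) * (K * a2 * b1 / (fk * fj *
          ((1 / 2 - 2 * s + K - 1) * (1 / 2 - 2 * s + K - 2))))) := by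
  have e1 : 2 * K - 1 - 4 * s = 2 * (1 / 2 - 2 * s + K - 1) := by ring
  have e2 : 2 * K - 3 - 4 * s = 2 * (1 / 2 - 2 * s + K - 2) := by ring
  rw [e1, e2]
  generalize 1 / 2 - 2 * s + K - 1 = d1 at *
  generalize 1 / 2 - 2 * s + K - 2 = d2 at *
  generalize 4 * s + 1 = c at *
  field_simp
  ring

theorem po_two (y : ℚ) (k : ℕ) :
    po y k * ((y + k) * (y + k + 1)) = y * (y + 1) * po (y + 2) k := by
  have h1 : po y (k + 1 + 1) = po y k * ((y + k) * (y + k + 1)) := by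
    rw [po_succ, po_succ]
    push_cast
    ring
  have h2 : po y (k + 1 + 1) = y * (y + 1) * po (y + 2) k := by
    rw [po_succ', po_succ', show y + 1 + 1 = y + 2 by ring]
    ring
  rw [← h1, h2]

theorem alg2 (α K A A' b2 a2 B1 B1' F d1 d2 J : ℚ) (hα : α ≠ 0) (hα1 : α + 1 ≠ 0) (hF : F ≠ 0)
    (hd1 : d1 ≠ 0) (hd2 : d2 ≠ 0) (hK : α + K ≠ 0) (hK1 : α + K + 1 ≠ 0)
    (hA : A * ((α + K) * (α + K + 1)) = α * (α + 1) * A')
    (hB : B1' * ((α + J) * (α + J + 1)) = α * (α + 1) * B1) :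
    (K * A * b2 / F) * (K * a2 * B1 / (F * (d1 * d2))) =
      (K * A' * b2 / (F * ((α + 2 + K - 1) * (α + 2 + K - 2)))) * (K * a2 * B1' / F) *
        (((α + J) / d1) * ((α + J + 1) / d2)) := by
  have e1 : α + 2 + K - 1 = α + K + 1 := by ring
  have e2 : α + 2 + K - 2 = α + K := by ring
  rw [e1, e2]
  have h1 : A' = A * ((α + K) * (α + K + 1)) / (α * (α + 1)) := by
    rw [hA]
    field_simp
  have h2 : B1 = B1' * ((α + J) * (α + J + 1)) / (α * (α + 1)) := by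
    rw [hB]
    field_simp
  rw [h1, h2]
  field_simp

theorem v : Pool.Agent.H547.CW.S_V := by
  intro p hp r s k hp4 hr hs hk hkN
  have hp3 : 3 ≤ p := by omega
  obtain ⟨j, hj⟩ : ∃ j, p ^ r - k = j := ⟨_, rfl⟩
  rw [hj]
  have hjk : j + k = p ^ r := by omega
  have hNp : p ≤ p ^ r := Nat.le_self_pow (by omega) p
  have hhalf : (1 / 2 : ℚ) ∈ Zp p := half_mem hp3
  have h2s : (2 * (s : ℚ)) ∈ Zp p := by exact_mod_cast nat_mem (p := p) (2 * s)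
  have hα : (1 / 2 + 2 * (s : ℚ)) ∈ Zp p := add_mem hhalf h2s
  have hx : (1 / 2 - 2 * (s : ℚ)) ∈ Zp p := sub_mem hhalf h2s
  have hc : (1 / (4 * (s : ℚ) + 1)) ∈ Zp p := by
    have h1 := uNat (p := p) (k := 4 * s + 1) (by omega) (by omega)
    push_cast at h1
    exact dmem (one_mem _) h1
  have hc0 : (4 * (s : ℚ) + 1) ≠ 0 := by positivity
  have hk0 : (k ! : ℚ) ≠ 0 := by exact_mod_cast Nat.factorial_ne_zero k
  have hj0 : (j ! : ℚ) ≠ 0 := by exact_mod_cast Nat.factorial_ne_zero j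
  have hd1 : (1 / 2 - 2 * (s : ℚ) + k - 1) ≠ 0 := by
    intro h
    have h1 : 2 * (k : ℚ) = 4 * s + 1 := by linarith
    have h2 : 2 * k = 4 * s + 1 := by exact_mod_cast h1
    omega
  have hd2 : (1 / 2 - 2 * (s : ℚ) + k - 2) ≠ 0 := by
    intro h
    have h1 : 2 * (k : ℚ) = 4 * s + 3 := by linarith
    have h2 : 2 * k = 4 * s + 3 := by exact_mod_cast h1
    omega
  have e12 : (1 : ℚ) - 1 / 2 = 1 / 2 := by norm_num
  have eα : (1 : ℚ) - (1 / 2 + 2 * s) = 1 / 2 - 2 * s := by ring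
  have ex : (1 : ℚ) - (1 / 2 - 2 * s) = 1 / 2 + 2 * s := by ring
  -- the factor for one half
  have hH : I p r (k * po (1 / 2) k * po (1 / 2) j / ((k ! : ℚ) * (j ! : ℚ))) := by
    have h := T2 (p := p) hhalf hk hjk
    rwa [e12] at h
  have ht0 : tau s ∈ Zp p := tau_mem hp3 (by omega)
  have ht1 : tau (s + 1) ∈ Zp p := tau_mem hp3 (by omega)
  have hcst : ∀ t1 ∈ Zp p, ∀ t2 ∈ Zp p,
      (-8 * (4 * (s : ℚ) + 2) * t1 * t2) * (1 / (4 * (s : ℚ) + 1)) ^ 2 ∈ Zp p := by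
    intro t1 ht1 t2 ht2
    have h1 : (-8 * (4 * (s : ℚ) + 2)) ∈ Zp p := by
      have h2 := int_mem (p := p) (-8 * (4 * (s : ℤ) + 2))
      push_cast at h2
      exact h2
    exact mul_mem (mul_mem (mul_mem h1 ht1) ht2) (pow_mem hc 2)
  constructor
  · have h1 : I p r (k * po (1 / 2 + 2 * (s : ℚ)) k * po (1 / 2 - 2 * (s : ℚ)) j /
        ((k ! : ℚ) * (j ! : ℚ))) := by
      have h := T2 (p := p) hα hk hjk
      rwa [eα] at h
    have h2 : k * po (1 / 2 - 2 * (s : ℚ)) k * po (1 / 2 + 2 * (s : ℚ)) j /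
        ((k ! : ℚ) * (j ! : ℚ) * ((1 / 2 - 2 * (s : ℚ) + k - 1) *
          (1 / 2 - 2 * (s : ℚ) + k - 2))) ∈ Zp p := by
      have h := T3 (p := p) hx hp3 hr hk hjk hd1 hd2
      rwa [ex] at h
    have h3 := alg1 (s : ℚ) k (tau s) (tau s) (po (1 / 2 + 2 * (s : ℚ)) k)
      (po (1 / 2 - 2 * (s : ℚ)) k) (po (1 / 2) k) (po (1 / 2 + 2 * (s : ℚ)) j)
      (po (1 / 2 - 2 * (s : ℚ)) j) (po (1 / 2) j) (k ! : ℚ) (j ! : ℚ) hc0 hk0 hj0 hd1 hd2
    have h4 : G s k * f s j = _ := h3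
    rw [h4]
    have h5 := (hH.mulL (hcst _ ht0 _ ht0)).mul (h1.mulR h2)
    rwa [← two_mul] at h5
  · have hαp : (1 / 2 + 2 * (s : ℚ)) ≠ 0 := by positivity
    have hαp1 : (1 / 2 + 2 * (s : ℚ) + 1) ≠ 0 := by positivity
    have hK : (1 / 2 + 2 * (s : ℚ) + k) ≠ 0 := by positivity
    have hK1 : (1 / 2 + 2 * (s : ℚ) + k + 1) ≠ 0 := by positivity
    have hβ : (1 / 2 + 2 * (s : ℚ) + 2) ∈ Zp p := by
      have h := nat_mem (p := p) 2
      push_cast at h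
      exact add_mem hα h
    have eb : (1 : ℚ) - (1 / 2 + 2 * s + 2) = 1 / 2 - 2 * ((s + 1 : ℕ) : ℚ) := by
      push_cast
      ring
    have eb' : (1 / 2 + 2 * s + 2 : ℚ) = 1 / 2 + 2 * ((s + 1 : ℕ) : ℚ) := by
      push_cast
      ring
    have h1 : k * po (1 / 2 + 2 * (s : ℚ) + 2) k * po (1 / 2 - 2 * ((s + 1 : ℕ) : ℚ)) j /
        ((k ! : ℚ) * (j ! : ℚ) * ((1 / 2 + 2 * (s : ℚ) + 2 + k - 1) *
          (1 / 2 + 2 * (s : ℚ) + 2 + k - 2))) ∈ Zp p := by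
      have h := T3 (p := p) hβ hp3 hr hk hjk (by
        rw [show (1 / 2 + 2 * (s : ℚ) + 2 + k - 1) = 1 / 2 + 2 * (s : ℚ) + k + 1 by ring]
        exact hK1) (by
        rw [show (1 / 2 + 2 * (s : ℚ) + 2 + k - 2) = 1 / 2 + 2 * (s : ℚ) + k by ring]
        exact hK)
      rwa [eb] at h
    have h2 : I p r (k * po (1 / 2 - 2 * (s : ℚ)) k * po (1 / 2 + 2 * (s : ℚ)) j /
        ((k ! : ℚ) * (j ! : ℚ))) := by
      have h := T2 (p := p) hx hk hjk
      rwa [ex] at h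
    have hNq : (p : ℚ) ^ r = (j : ℚ) + k := by exact_mod_cast hjk.symm
    have r1 : (1 / 2 + 2 * (s : ℚ) + j) / (1 / 2 - 2 * (s : ℚ) + k - 1) ∈ Zp p := by
      have h := ratio (p := p) (r := r) (u := 4 * s + 1 + 2 * j) hp3 (by omega) (by omega)
      have e : ((4 * s + 1 + 2 * j : ℕ) : ℚ) / (2 * (p : ℚ) ^ r - ((4 * s + 1 + 2 * j : ℕ) : ℚ)) =
          (1 / 2 + 2 * (s : ℚ) + j) / (1 / 2 - 2 * (s : ℚ) + k - 1) := by
        rw [hNq]
        push_cast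
        rw [show (4 * (s : ℚ) + 1 + 2 * j) = 2 * (1 / 2 + 2 * (s : ℚ) + j) by ring,
          show 2 * ((j : ℚ) + k) - 2 * (1 / 2 + 2 * (s : ℚ) + j) =
            2 * (1 / 2 - 2 * (s : ℚ) + k - 1) by ring]
        exact mul_div_mul_left _ _ two_ne_zero
      rwa [e] at h
    have r2 : (1 / 2 + 2 * (s : ℚ) + j + 1) / (1 / 2 - 2 * (s : ℚ) + k - 2) ∈ Zp p := by
      have h := ratio (p := p) (r := r) (u := 4 * s + 3 + 2 * j) hp3 (by omega) (by omega)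
      have e : ((4 * s + 3 + 2 * j : ℕ) : ℚ) / (2 * (p : ℚ) ^ r - ((4 * s + 3 + 2 * j : ℕ) : ℚ)) =
          (1 / 2 + 2 * (s : ℚ) + j + 1) / (1 / 2 - 2 * (s : ℚ) + k - 2) := by
        rw [hNq]
        push_cast
        rw [show (4 * (s : ℚ) + 3 + 2 * j) = 2 * (1 / 2 + 2 * (s : ℚ) + j + 1) by ring,
          show 2 * ((j : ℚ) + k) - 2 * (1 / 2 + 2 * (s : ℚ) + j + 1) =
            2 * (1 / 2 - 2 * (s : ℚ) + k - 2) by ring]
        exact mul_div_mul_left _ _ two_ne_zero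
      rwa [e] at h
    have h3 := alg1 (s : ℚ) k (tau s) (tau (s + 1)) (po (1 / 2 + 2 * (s : ℚ)) k)
      (po (1 / 2 - 2 * (s : ℚ)) k) (po (1 / 2) k) (po (1 / 2 + 2 * ((s + 1 : ℕ) : ℚ)) j)
      (po (1 / 2 - 2 * ((s + 1 : ℕ) : ℚ)) j) (po (1 / 2) j) (k ! : ℚ) (j ! : ℚ) hc0 hk0 hj0 hd1 hd2
    have h4 : G s k * f (s + 1) j = _ := h3
    have hB := po_two (1 / 2 + 2 * (s : ℚ)) j
    rw [eb'] at hB
    rw [h4, alg2 (1 / 2 + 2 * (s : ℚ)) k (po (1 / 2 + 2 * (s : ℚ)) k)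
      (po (1 / 2 + 2 * (s : ℚ) + 2) k) (po (1 / 2 - 2 * ((s + 1 : ℕ) : ℚ)) j)
      (po (1 / 2 - 2 * (s : ℚ)) k) (po (1 / 2 + 2 * ((s + 1 : ℕ) : ℚ)) j)
      (po (1 / 2 + 2 * (s : ℚ)) j) ((k ! : ℚ) * (j ! : ℚ)) _ _ j hαp hαp1
      (mul_ne_zero hk0 hj0) hd1 hd2 hK hK1 (po_two _ _) hB]
    have h5 := (hH.mulL (hcst _ ht0 _ ht1)).mul (((h2.mulL h1)).mulR (mul_mem r1 r2))
    rwa [← two_mul] at h5

end Pool.Agent.H909.CW64.V
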